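import Pool.Agent.Helper90.MZ.StmtsA

set_option autoImplicit false

namespace Pool.Agent.Helper90.MZ

open Pool.Agent.Helper90.TS

theorem st_COH (h1 : ST_MDLB) : ST_COH := by
  intro V G _ _ X M B C hM hB hC hsi ι _ D β hD hβ hβB
  obtain ⟨-, -, -, hsta, -, -, hfin⟩ := h1 V G X
  have hMc : M.Countable := hM.1
  -- finitely many parameters from `C`
  obtain ⟨m, a, E0, ha, hE0, hDE0⟩ := st_FSUP V G X (M ∪ C) (hMc.union hC) ι D hD
  let κ : Type := {i : Fin m // a i ∈ C}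
  let c : κ → V := fun i => a i.1
  have hcC : Set.range c ⊆ C := by
    rintro _ ⟨i, rfl⟩
    exact i.2
  have haMc : Set.range a ⊆ M ∪ Set.range c := by
    rintro _ ⟨i, rfl⟩
    rcases ha ⟨i, rfl⟩ with h | h
    · exact Or.inl h
    · exact Or.inr ⟨⟨i, h⟩, rfl⟩
  have hD2 : X.Ov (M ∪ Set.range c) D := by
    rw [hDE0]
    exact ov_sec' (ov_mono X (Set.empty_subset _) hE0) haMc
  obtain ⟨E, hE, hDE⟩ := a_fsu2 V G X M hMc κ ι c D hD2
  -- symmetry
  have hcc : (Set.range c).Countable := Set.countable_range c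
  have hcb : (Set.range β).Countable := Set.countable_range β
  have hs1 : SI X M (Set.range β) (Set.range c) :=
    si_right hMc hcb hC hcC (si_left hβB hsi)
  have hs2 : SI X M (Set.range c) (Set.range β) := si_symm hMc hcb hcc hs1
  have hrk : X.rk (M ∪ Set.range β) c = X.rk M c := (rk_si hMc hcb).2 hs2
  obtain ⟨χ, hχ, hcχ, hdg⟩ := hsta M hM κ c
  obtain ⟨-, -, hr3, -, -, -⟩ := a_rkb V G X κ c
  -- sections
  let E' : Set (ι ⊕ κ → V) := {z | Sum.elim (z ∘ Sum.inr) (z ∘ Sum.inl) ∈ E}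
  have hE' : X.Ov M E' := by
    have := ov_swap hE
    exact this
  let S : Set (ι → V) := {y | X.Rge (X.rk M c) (χ ∩ {x | Sum.elim y x ∈ E'})}
  have hSd : S ∈ X.Df ι := a_def V G X ι κ (X.rk M c) χ E' hχ.1 hdg.2.1 hE'.1
  have hS : X.Ov M S := by
    refine ⟨hSd, fun g hg y hy => ?_⟩
    have e : (χ ∩ {x | Sum.elim (g • y) x ∈ E'}) =
        {x | g⁻¹ • x ∈ χ ∩ {x | Sum.elim y x ∈ E'}} := by
      ext x
      have hg' : g⁻¹ ∈ Fx G M := inv_mem hg
      have e1 : g⁻¹ • Sum.elim (g • y) x = Sum.elim y (g⁻¹ • x) := by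
        rw [smul_elim, inv_smul_smul]
      constructor
      · rintro ⟨hx1, hx2⟩
        refine ⟨hχ.2 _ hg' _ hx1, ?_⟩
        have := hE'.2 _ hg' _ hx2
        rw [e1] at this
        exact this
      · rintro ⟨hx1, hx2⟩
        refine ⟨?_, ?_⟩
        · have := hχ.2 g hg _ hx1
          rwa [smul_inv_smul] at this
        · have := hE'.2 g hg _ hx2
          rw [smul_elim, smul_inv_smul] at this
          exact this
    change X.Rge _ _
    rw [e]
    exact ((a_rbas V G X κ).2.2.1 _ _ g⁻¹).2 hy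
  have hβS : β ∈ S := by
    have hO : X.Ov (M ∪ Set.range β) (χ ∩ {x | Sum.elim β x ∈ E'}) :=
      ov_inter (ov_mono X Set.subset_union_left hχ)
        (ov_sec' (ov_mono X Set.subset_union_left hE') Set.subset_union_right)
    have h2 := hr3 (M ∪ Set.range β) _ hO ⟨hcχ, by
      change Sum.elim c β ∈ E
      have : β ∈ {x | Sum.elim c x ∈ E} := hDE ▸ hβ
      exact this⟩
    rw [hrk] at h2
    exact h2
  obtain ⟨β', hβ', hβ'M⟩ := hfin M hM ι S hS ⟨β, hβS⟩
  refine ⟨β', ?_, hβ'M⟩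
  by_contra hno
  have hno2 : ¬ Sum.elim c β' ∈ E := by
    intro h
    apply hno
    rw [hDE]
    exact h
  have hO : X.Ov M (χ \ {x | Sum.elim β' x ∈ E'}) := ov_diff hχ (ov_sec' hE' hβ'M)
  have h3 := hr3 M _ hO ⟨hcχ, hno2⟩
  refine hdg.2.2 _ _ Set.inter_subset_left Set.sdiff_subset ?_ hβ' h3
  exact Set.disjoint_left.2 fun x hx hx' => hx'.2 hx.2

end Pool.Agent.Helper90.MZ
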