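import Pool.Agent.Helper90.MZ.StmtsA

set_option autoImplicit false

namespace Pool.Agent.Helper90.MZ

open Pool.Agent.Helper90.TS

variable {V G : Type} [Group G] [MulAction G V] {X : Ctx V G}

theorem mdlb_sat {M : Set V} (hM : Sat G M) : Mdl X M := by
  refine ⟨hM.1, fun n D hD hne => ?_⟩
  obtain ⟨x, hx⟩ := hne
  obtain ⟨m, a, E, ha, hE, rfl⟩ := st_FSUP V G X M hM.1 (Fin n) D hD
  obtain ⟨b', hb', g, hg, hgx⟩ := hM.2 (Set.range a) ha (Set.finite_range a) (Fin n) x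
  refine ⟨b', ?_, hb'⟩
  have h1 := ((ov_empty_iff X).1 hE).2 g (Subgroup.mem_top g) _ hx
  rw [smul_elim, fx_range.1 hg, hgx] at h1
  exact h1

theorem mdlb_tr {M : Set V} (g : G) (hM : Mdl X M) : Mdl X (tr g M) := by
  refine ⟨tr_countable g hM.1, fun n D hD hne => ?_⟩
  have h1 := ov_smul hD g
  rw [tr_inv_tr] at h1
  obtain ⟨x, hx⟩ := hne
  obtain ⟨y, hy, hyM⟩ := hM.2 n _ h1 ⟨g⁻¹ • x, by
    change g • g⁻¹ • x ∈ D
    rw [smul_inv_smul]
    exact hx⟩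
  refine ⟨g • y, hy, ?_⟩
  rw [← tr_range]
  exact tr_mono g hyM

theorem mdlb_acl {M : Set V} (hM : Mdl X M) : acl G M = M := by
  refine Set.Subset.antisymm (fun e he => ?_) (a_aclb V G X M hM.1).1
  by_contra hne
  set O : Set (Fin 1 → V) := {x | ∃ g ∈ Fx G M, x = fun _ => g • e} with hO
  have hOf : O.Finite := by
    have h1 : {e' | ∃ g ∈ Fx G M, g • e = e'}.Finite := he
    refine (h1.image (fun v => (fun _ : Fin 1 => v))).subset ?_
    rintro _ ⟨g, hg, rfl⟩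
    exact ⟨g • e, ⟨g, hg, rfl⟩, rfl⟩
  have hO1 : X.Ov M O := by
    refine ⟨ov_finite hOf, ?_⟩
    rintro k hk _ ⟨g, hg, rfl⟩
    refine ⟨k * g, mul_mem hk hg, ?_⟩
    ext i
    change k • g • e = (k * g) • e
    rw [mul_smul]
  have hO2 : X.Ov M {x | x ∈ O ∧ x 0 ∈ M} := by
    refine ⟨ov_finite (hOf.subset fun x hx => hx.1), ?_⟩
    rintro k hk x ⟨hx, hx0⟩
    have hkx : k • x = x := by
      refine fx_smul hk ?_
      rintro _ ⟨i, rfl⟩
      rw [Subsingleton.elim i 0]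
      exact hx0
    rw [hkx]
    exact ⟨hx, hx0⟩
  obtain ⟨x, hx, hxM⟩ := hM.2 1 _ (ov_diff hO1 hO2) ⟨fun _ => e,
    ⟨1, one_mem _, by rw [one_smul]⟩, fun h => hne h.2⟩
  exact hx.2 ⟨hx.1, hxM ⟨0, rfl⟩⟩

theorem mdlb_fin {M : Set V} (hM : Mdl X M) {ι : Type} [Finite ι] {D : Set (ι → V)}
    (hD : X.Ov M D) (hne : D.Nonempty) : ∃ x ∈ D, Set.range x ⊆ M := by
  obtain ⟨n, ⟨e⟩⟩ := Finite.exists_equiv_fin ι
  obtain ⟨x, hx⟩ := hne
  obtain ⟨y, hy, hyM⟩ := hM.2 n _ (ov_equiv hD e) ⟨x ∘ e.symm, by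
    change (x ∘ e.symm) ∘ e ∈ D
    have : (x ∘ e.symm) ∘ e = x := by
      ext i
      simp
    rw [this]
    exact hx⟩
  refine ⟨y ∘ e, hy, ?_⟩
  rintro _ ⟨i, rfl⟩
  exact hyM ⟨e i, rfl⟩

theorem mdlb_union (M : ℕ → Set V) (hM : ∀ n, Mdl X (M n)) (hs : ∀ n, M n ⊆ M (n + 1)) :
    Mdl X (⋃ n, M n) := by
  have hmono : Monotone M := monotone_nat_of_le_succ hs
  refine ⟨Set.countable_iUnion fun n => (hM n).1, fun n D hD hne => ?_⟩
  obtain ⟨m, a, E, ha, hE, hDE⟩ :=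
    st_FSUP V G X (⋃ n, M n) (Set.countable_iUnion fun n => (hM n).1) (Fin n) D hD
  have hex : ∃ N, Set.range a ⊆ M N := by
    have h1 : ∀ i, ∃ k, a i ∈ M k := fun i => by
      have := ha ⟨i, rfl⟩
      rwa [Set.mem_iUnion] at this
    choose k hk using h1
    refine ⟨Finset.univ.sup k, ?_⟩
    rintro _ ⟨i, rfl⟩
    exact hmono (Finset.le_sup (Finset.mem_univ i)) (hk i)
  obtain ⟨N, hN⟩ := hex
  have hDN : X.Ov (M N) D := by
    rw [hDE]
    exact ov_sec' (ov_mono X (Set.empty_subset _) hE) hN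
  obtain ⟨x, hx, hxM⟩ := (hM N).2 n D hDN hne
  exact ⟨x, hx, hxM.trans (Set.subset_iUnion M N)⟩

theorem st_MDLB : ST_MDLB := by
  intro V G _ _ X
  refine ⟨fun M hM => mdlb_sat hM, ?_, fun M hM => mdlb_acl hM, ?_, fun M g hM => mdlb_tr g hM,
    mdlb_union, fun M hM ι _ D hD hne => mdlb_fin hM hD hne⟩
  · intro A B C hAC hC hB hsi
    have hA : A.Countable := hC.mono hAC
    obtain ⟨M0, hCM, hM0⟩ := st_SATM V G X C hC
    have hm0 : Mdl X M0 := mdlb_sat hM0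
    obtain ⟨g, hg, hgs⟩ := a_exts V G X C M0 B hC hm0.1 hB
    have hm : Mdl X (tr g M0) := mdlb_tr g hm0
    have hCt : C ⊆ tr g M0 := by
      have := tr_mono g hCM
      rwa [tr_fx hg] at this
    refine ⟨tr g M0, hm, hCt, ?_⟩
    have h1 : SI X (A ∪ C) (tr g M0) B := by
      rwa [Set.union_eq_self_of_subset_left hAC]
    have h2 := si_transl hA hC hB hm.1 hsi h1
    rwa [Set.union_eq_self_of_subset_left hCt] at h2
  · intro M hM ι _ b
    obtain ⟨e, he, -, hs⟩ := a_stat V G X M hM.1 ι b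
    rw [mdlb_acl hM] at he
    rwa [Set.union_eq_self_of_subset_right he] at hs

end Pool.Agent.Helper90.MZ
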