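import Pool.Agent.Helper90.MZ.StmtsC

set_option autoImplicit false

namespace Pool.Agent.Helper90.MZ

open Pool.Agent.Helper90.TS

theorem st_NDPG (h1 : ST_STN) (h2 : ST_IND) : ST_NDPG := by
  intro V G _ _ X M Mu Mv n hM hMMu hMMv hMu hMv hsi
  have hMc : M.Countable := hM.1
  have hstn : Stn X M Mv := (h1 V G X).1 M Mv hM hMv
  obtain ⟨-, -, hre, -, -, hex, -, -, -⟩ := h2 V G X M hMc
  set T : ℕ → Set V := fun k => if k % 2 = 0 then Mu else Mv with hT
  have hTc : ∀ i, (T i).Countable := by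
    intro i
    rw [hT]
    by_cases h : i % 2 = 0
    · simp only [h, if_true]
      exact hMu
    · simp only [h, if_false]
      exact hMv
  obtain ⟨γ, hγ, hind, -⟩ := hex T ∅ hTc Set.countable_empty
  set α : Fin n → G := fun i => γ (2 * i) with hα
  set β : Fin n → G := fun j => γ (2 * j + 1) with hβ
  set f : Fin n ⊕ Fin n → ℕ := Sum.elim (fun i => 2 * (i : ℕ)) (fun j => 2 * (j : ℕ) + 1) with hf
  have hfi : Function.Injective f := by
    rintro (i | i) (j | j) h
    · have h' : 2 * (i : ℕ) = 2 * (j : ℕ) := h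
      have : i = j := Fin.ext (by omega)
      rw [this]
    · have h' : 2 * (i : ℕ) = 2 * (j : ℕ) + 1 := h
      omega
    · have h' : 2 * (i : ℕ) + 1 = 2 * (j : ℕ) := h
      omega
    · have h' : 2 * (i : ℕ) + 1 = 2 * (j : ℕ) + 1 := h
      have : i = j := Fin.ext (by omega)
      rw [this]
  have hind2 := hre ℕ (Fin n ⊕ Fin n) _ f hfi hind
  have hS : (fun i => tr (γ (f i)) (T (f i))) =
      Sum.elim (fun i => tr (α i) Mu) (fun j => tr (β j) Mv) := by
    funext k
    rcases k with i | j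
    · have e : T (2 * (i : ℕ)) = Mu := by
        rw [hT]
        simp
      change tr (γ (2 * (i : ℕ))) (T (2 * (i : ℕ))) = tr (α i) Mu
      rw [e]
    · have e : T (2 * (j : ℕ) + 1) = Mv := by
        rw [hT]
        have : (2 * (j : ℕ) + 1) % 2 ≠ 0 := by omega
        simp [this]
      change tr (γ (2 * (j : ℕ) + 1)) (T (2 * (j : ℕ) + 1)) = tr (β j) Mv
      rw [e]
  rw [hS] at hind2
  have hαM : ∀ i, α i ∈ Fx G M := fun i => hγ _
  have hβM : ∀ j, β j ∈ Fx G M := fun j => hγ _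
  have key : ∀ i j, ∃ h ∈ Fx G (M ∪ Mu), ∀ x ∈ Mv, h • x = ((α i)⁻¹ * β j) • x := by
    intro i j
    refine hstn Mu hMu ((α i)⁻¹ * β j) (mul_mem (inv_mem (hαM i)) (hβM j))
      (si_symm hMc hMu hMv hsi) ?_
    have h3 := hind2 {Sum.inr j} {Sum.inl i} (by
      rw [Set.disjoint_singleton]
      exact Sum.inr_ne_inl)
    simp only [Set.mem_singleton_iff, Set.iUnion_iUnion_eq_left, Sum.elim_inr,
      Sum.elim_inl] at h3
    have h4 := (si_fx (X := X) hMc (tr_countable (β j) hMv) (tr_countable (α i) hMu)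
      (inv_mem (hαM i))).2 h3
    rwa [tr_tr, tr_inv_tr] at h4
  choose h hh1 hh2 using key
  refine ⟨α, β, fun i j => α i * h i j, fun i => ⟨hαM i, hβM i⟩, fun i j => ?_, fun i j x hx => ?_,
    fun i j x hx => ?_, hind2⟩
  · exact mul_mem (hαM i) (fx_union.1 (hh1 i j)).1
  · rw [mul_smul, (fx_union.1 (hh1 i j)).2 x hx]
  · rw [mul_smul, hh2 i j x hx, mul_smul, smul_inv_smul]

end Pool.Agent.Helper90.MZ
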