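import Pool.Agent.Helper90.MZ.StmtsA

set_option autoImplicit false

namespace Pool.Agent.Helper90.MZ

open Pool.Agent.Helper90.TS

theorem rkz_fin {V G : Type} [Group G] [MulAction G V] {X : Ctx V G} {ι : Type} [Finite ι]
    {D : Set (ι → V)} (hD : D ∈ X.Df ι) (hr : ¬ X.Rge 1 D) : D.Finite := by
  by_contra hinf
  have hinf' : D.Infinite := hinf
  apply hr
  rw [rge_iff]
  refine ⟨hD, hinf'.nonempty, fun β hβ => ?_⟩
  have hβ0 : β = 0 := by
    by_contra hne
    exact absurd (Order.one_le_iff_ne_zero.2 hne) (not_le.2 hβ)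
  subst hβ0
  refine ⟨fun i => {((hinf'.natEmbedding D i : D) : ι → V)}, fun i => ?_, fun i j hij => ?_,
    fun i => ?_⟩
  · rintro x hx
    rw [Set.mem_singleton_iff.1 hx]
    exact (hinf'.natEmbedding D i).2
  · rw [Set.disjoint_singleton]
    intro h
    exact hij ((hinf'.natEmbedding D).injective (Subtype.ext h))
  · refine ((a_rbas V G X ι).2.2.2.1 _).2 ⟨ov_finite (Set.finite_singleton _),
      Set.singleton_nonempty _⟩

theorem rkz_rge {V G : Type} [Group G] [MulAction G V] {X : Ctx V G} {ι : Type} [Finite ι]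
    {D : Set (ι → V)} (hD : D.Finite) : ¬ X.Rge 1 D := by
  intro h
  rw [rge_iff] at h
  obtain ⟨-, -, h3⟩ := h
  obtain ⟨F, hF1, hF2, hF3⟩ := h3 0 zero_lt_one
  have hne : ∀ i, (F i).Nonempty := fun i => (((a_rbas V G X ι).2.2.2.1 _).1 (hF3 i)).2
  choose x hx using hne
  have hinj : Function.Injective x := by
    intro i j hij
    by_contra hne
    exact Set.disjoint_left.1 (hF2 i j hne) (hx i) (hij ▸ hx j)
  refine Set.infinite_range_of_injective hinj (hD.subset ?_)
  rintro _ ⟨i, rfl⟩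
  exact hF1 i (hx i)

theorem st_RKZ : ST_RKZ := by
  intro V G _ _ X A hA ι _ b
  obtain ⟨h1, h2, -, -, -, -⟩ := a_rkb V G X ι b
  constructor
  · intro h i
    obtain ⟨D, hD, hb, hr⟩ := h1 A
    rw [h] at hr
    have hf : D.Finite := rkz_fin hD.1 (by
      rw [hr]
      exact not_le.2 zero_lt_one)
    have h3 : {e' | ∃ g ∈ Fx G A, g • b i = e'} ⊆ (fun x : ι → V => x i) '' D := by
      rintro _ ⟨g, hg, rfl⟩
      exact ⟨g • b, hD.2 g hg b hb, rfl⟩
    exact (hf.image _).subset h3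
  · intro h
    have hr : Set.range b ⊆ acl G A := by
      rintro _ ⟨i, rfl⟩
      exact h i
    have hf := (a_aclb V G X A hA).2.2.2.2.2.2 ι b hr
    have hO : X.Ov A {e' | ∃ g ∈ Fx G A, g • b = e'} := by
      refine ⟨ov_finite hf, ?_⟩
      rintro g hg _ ⟨k, hk, rfl⟩
      exact ⟨g * k, mul_mem hg hk, mul_smul _ _ _⟩
    have h3 := h2 A _ 0 hO ⟨1, one_mem _, one_smul _ _⟩ (by
      have e : Order.succ (0 : Ordinal.{0}) = 1 := Ordinal.succ_zero
      rw [e]
      exact rkz_rge hf)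
    exact le_antisymm h3 zero_le

end Pool.Agent.Helper90.MZ
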