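import Pool.Agent.Helper90.MZ.StmtsA

set_option autoImplicit false

namespace Pool.Agent.Helper90.MZ

open Pool.Agent.Helper90.TS

/-- finitely many conditions on subtuples -/
theorem sem_ov {V G : Type} [Group G] [MulAction G V] {X : Ctx V G} {A : Set V} {κ ι J : Type}
    [Finite κ] [Finite ι] [Finite J] {D : Set (κ → V)} {B : Set (ι → V)} (hD : X.Ov A D)
    (hB : X.Ov A B) (σ : J → κ → ι) : X.Ov A {x | x ∈ B ∧ ∀ j, x ∘ σ j ∈ D} := by
  have h := ov_diff hB (ov_iUnion fun j => ov_diff hB (ov_sub hD hB (σ j)))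
  convert h using 1
  ext x
  constructor
  · rintro ⟨h1, h2⟩
    refine ⟨h1, fun h3 => ?_⟩
    obtain ⟨j, -, hj⟩ := Set.mem_iUnion.1 h3
    exact hj ⟨h1, h2 j⟩
  · rintro ⟨h1, h2⟩
    refine ⟨h1, fun j => ?_⟩
    by_contra h3
    exact h2 (Set.mem_iUnion.2 ⟨j, h1, fun h4 => h3 h4.2⟩)

/-- the set of parameters where the rank is large, invariance -/
theorem sem_inv {V G : Type} [Group G] [MulAction G V] {X : Ctx V G} {A : Set V} {κ ι : Type}
    [Finite κ] [Finite ι] (β : Ordinal.{0}) {ρ : Set (ι → V)} {E : Set (κ ⊕ ι → V)}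
    (hρ : X.Ov A ρ) (hr : ¬ X.Rge (Order.succ β) ρ) (hE : X.Ov A E) :
    X.Ov A {w : κ → V | X.Rge β (ρ ∩ {x | Sum.elim w x ∈ E})} := by
  refine ⟨a_def V G X κ ι β ρ E hρ.1 hr hE.1, fun g hg y hy => ?_⟩
  have e : (ρ ∩ {x | Sum.elim (g • y) x ∈ E}) =
      {x | g⁻¹ • x ∈ ρ ∩ {x | Sum.elim y x ∈ E}} := by
    ext x
    have hg' : g⁻¹ ∈ Fx G A := inv_mem hg
    have e1 : g⁻¹ • Sum.elim (g • y) x = Sum.elim y (g⁻¹ • x) := by
      rw [smul_elim, inv_smul_smul]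
    constructor
    · rintro ⟨hx1, hx2⟩
      refine ⟨hρ.2 _ hg' _ hx1, ?_⟩
      have := hE.2 _ hg' _ hx2
      rw [e1] at this
      exact this
    · rintro ⟨hx1, hx2⟩
      refine ⟨?_, ?_⟩
      · have := hρ.2 g hg _ hx1
        rwa [smul_inv_smul] at this
      · have := hE.2 g hg _ hx2
        rw [smul_elim, smul_inv_smul] at this
        exact this
  change X.Rge _ _
  rw [e]
  exact ((a_rbas V G X ι).2.2.1 _ _ g⁻¹).2 hy

theorem sem_core {V G : Type} [Group G] [MulAction G V] {X : Ctx V G} {A N Y : Set V}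
    {D : Set (Fin 1 → V)} (hN : Mdl X N) (hAN : A ⊆ N) (hD : X.Ov A D) (hY : Y.Countable)
    (hco : ∀ (κ : Type) [Finite κ] (W : Set (κ → V)) (y : κ → V), X.Ov N W → y ∈ W →
      Set.range y ⊆ Y → ∃ y' ∈ W, Set.range y' ⊆ A)
    (hYN : SI X A Y N) {m : ℕ} (z : Fin m → Fin 1 → V) (hz : ∀ i, z i ∈ D) :
    SI X (A ∪ Y ∪ Pts D N) (⋃ i, Set.range (z i)) N := by
  have hNc : N.Countable := hN.1
  have hAc : A.Countable := hNc.mono hAN
  have hPN : Pts D N ⊆ N := by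
    rintro v ⟨x, -, hx, hv⟩
    exact hx hv
  have hPc : (Pts D N).Countable := hNc.mono hPN
  set P := Pts D N with hP
  have hBc : (A ∪ Y ∪ P).Countable := (hAc.union hY).union hPc
  have hAPc : (A ∪ P).Countable := hAc.union hPc
  have hAPN : A ∪ P ⊆ N := Set.union_subset hAN hPN
  set zz : Fin m → V := fun i => z i 0 with hzz
  have hzr : (⋃ i, Set.range (z i)) = Set.range zz := by
    ext v
    rw [Set.mem_iUnion]
    constructor
    · rintro ⟨i, j, rfl⟩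
      refine ⟨i, ?_⟩
      rw [Subsingleton.elim j 0]
    · rintro ⟨i, rfl⟩
      exact ⟨i, 0, rfl⟩
  rw [hzr]
  have hzc : (Set.range zz).Countable := Set.countable_range zz
  refine si_symm hBc hNc hzc ?_
  intro n b hb
  obtain ⟨-, -, -, hmono, -, -⟩ := a_rkb V G X (Fin n) b
  refine le_antisymm (hmono _ _ Set.subset_union_left) ?_
  by_contra hlt
  rw [not_le] at hlt
  -- the rank over `A ∪ Y ∪ P` is the rank over `A ∪ P`
  have hs1 : SI X (A ∪ P) Y N :=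
    si_up hAc hY hNc hYN Set.subset_union_left (Set.union_subset_union_right A hPN)
  have hs2 : SI X (A ∪ P) (Set.range b) Y := si_left hb (si_symm hAPc hY hNc hs1)
  have hrk : X.rk (A ∪ Y ∪ P) b = X.rk (A ∪ P) b := by
    rw [Set.union_right_comm]
    exact (rk_si hAPc hY).2 hs2
  obtain ⟨hr1, -, hr3, -, -, -⟩ := a_rkb V G X (Fin n) b
  obtain ⟨ρ, hρ, hbρ, hρr⟩ := hr1 (A ∪ P)
  obtain ⟨χ, hχ, hbχ, hχr⟩ := hr1 (A ∪ Y ∪ P ∪ Set.range zz)
  rw [hrk] at hlt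
  set β := X.rk (A ∪ P) b with hβ
  have hρs : ¬ X.Rge (Order.succ β) ρ := by
    rw [hρr]
    exact not_le.2 (Order.lt_succ _)
  -- supports
  obtain ⟨k, a, E0, ha, hE0, hχE0⟩ :=
    st_FSUP V G X (A ∪ Y ∪ P ∪ Set.range zz) (hBc.union hzc) (Fin n) χ hχ
  let κ : Type := {i : Fin k // a i ∈ Y}
  let y : κ → V := fun i => a i.1
  have hyY : Set.range y ⊆ Y := by
    rintro _ ⟨i, rfl⟩
    exact i.2
  have hsup : Set.range a ⊆ (A ∪ P) ∪ Set.range (Sum.elim y zz) := by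
    rintro _ ⟨i, rfl⟩
    rw [Set.Sum.elim_range]
    rcases ha ⟨i, rfl⟩ with ((h | h) | h) | h
    · exact Or.inl (Or.inl h)
    · exact Or.inr (Or.inl ⟨⟨i, h⟩, rfl⟩)
    · exact Or.inl (Or.inr h)
    · exact Or.inr (Or.inr h)
  have hχ2 : X.Ov ((A ∪ P) ∪ Set.range (Sum.elim y zz)) χ := by
    rw [hχE0]
    exact ov_sec' (ov_mono X (Set.empty_subset _) hE0) hsup
  obtain ⟨E, hE, hχE⟩ := a_fsu2 V G X (A ∪ P) hAPc (κ ⊕ Fin m) (Fin n) (Sum.elim y zz) χ hχ2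
  have hR := sem_inv (X := X) β hρ hρs hE
  set R : Set (κ ⊕ Fin m → V) := {w | X.Rge β (ρ ∩ {x | Sum.elim w x ∈ E})} with hRdef
  -- the definable set
  have hT0 : X.Ov N {w : κ ⊕ Fin m → V | Sum.elim w b ∈ E} :=
    ov_secr' (ov_mono X hAPN hE) hb
  have hT1 := sem_ov (J := Fin m) (ov_mono X hAN hD) hT0
    (fun j => (fun _ : Fin 1 => (Sum.inr j : κ ⊕ Fin m)))
  have hT := ov_diff hT1 (ov_mono X hAPN hR)
  set T : Set (κ ⊕ Fin m → V) := {w | w ∈ {w : κ ⊕ Fin m → V | Sum.elim w b ∈ E} ∧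
    ∀ j : Fin m, w ∘ (fun _ : Fin 1 => (Sum.inr j : κ ⊕ Fin m)) ∈ D} \ R with hTdef
  have hyT : Sum.elim y zz ∈ T := by
    refine ⟨⟨?_, fun j => ?_⟩, ?_⟩
    · have : b ∈ {x | Sum.elim (Sum.elim y zz) x ∈ E} := hχE ▸ hbχ
      exact this
    · have e : (Sum.elim y zz) ∘ (fun _ : Fin 1 => (Sum.inr j : κ ⊕ Fin m)) = z j := by
        ext i
        rw [Subsingleton.elim i 0]
        rfl
      rw [e]
      exact hz j
    · intro h
      have h2 : X.Rge β (ρ ∩ χ) := by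
        rw [hχE]
        exact h
      have h3 := (a_rbas V G X (Fin n)).1 β _ χ hχ.1 Set.inter_subset_right h2
      rw [hχr] at h3
      exact absurd h3 (not_le.2 hlt)
  obtain ⟨y', ⟨x0, hx0⟩, hy'A⟩ := hco κ {u : κ → V | ∃ x : Fin m → V, Sum.elim u x ∈ T} y
    (ov_ex hT) ⟨zz, hyT⟩ hyY
  -- choose the `x` in `N`
  have hfin : ∃ x : Fin m → V, Sum.elim y' x ∈ T ∧ Set.range x ⊆ N := by
    obtain ⟨x, hx, hxN⟩ := hN.2 m _ (ov_sec' hT (hy'A.trans hAN)) ⟨x0, hx0⟩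
    exact ⟨x, hx, hxN⟩
  obtain ⟨x, ⟨⟨hx1, hx2⟩, hx3⟩, hxN⟩ := hfin
  have hxP : Set.range x ⊆ P := by
    rintro _ ⟨j, rfl⟩
    refine ⟨_, hx2 j, ?_, ⟨0, rfl⟩⟩
    rintro _ ⟨i, rfl⟩
    exact hxN ⟨j, rfl⟩
  have hO : X.Ov (A ∪ P) (ρ ∩ {x' | Sum.elim (Sum.elim y' x) x' ∈ E}) := by
    refine ov_inter hρ (ov_sec' hE ?_)
    rw [Set.Sum.elim_range]
    exact Set.union_subset_union hy'A hxP
  exact hx3 (hr3 (A ∪ P) _ hO ⟨hbρ, hx1⟩)

theorem st_SEM (h1 : ST_COH) : ST_SEM := by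
  intro V G _ _ X A N D hN hAN hD m z hz
  have hNc : N.Countable := hN.1
  constructor
  · have h := sem_core (Y := (∅ : Set V)) hN hAN hD Set.countable_empty ?_ si_empty_left z hz
    · rwa [Set.union_empty] at h
    · intro κ _ W y _ hy hyY
      refine ⟨y, hy, hyY.trans (Set.empty_subset _)⟩
  · intro hA Y hY hYN
    refine sem_core hN hAN hD hY ?_ hYN z hz
    intro κ _ W y hW hy hyY
    refine h1 V G X A Y N hA hY hNc hYN κ W y ?_ hy hyY
    rwa [Set.union_eq_self_of_subset_left hAN]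

end Pool.Agent.Helper90.MZ
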