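import Pool.Agent.Helper90.MZ.StmtsZ

set_option autoImplicit false

namespace Pool.Agent.Helper90.MZ

open Pool.Agent.Helper90.TS

theorem unq_fin (h1 : ST_RLB) {V G : Type} [Group G] [MulAction G V] (X : Ctx V G) (M : Set V)
    {κ' : Type} (q : κ' → Ty V) (b b' : κ' → Fin 1 → V) (hM : M.Countable)
    (hq : ∀ k, SR X (q k) ∧ (q k).A ⊆ M ∧ Rl X (q k) M (b k) ∧ Rl X (q k) M (b' k))
    (hi : Ind X M (fun k => Set.range (b k))) (hi' : Ind X M (fun k => Set.range (b' k)))
    (s : Finset κ') : ∃ g ∈ Fx G M, ∀ k ∈ s, g • b k = b' k := by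
  classical
  induction s using Finset.induction_on with
  | empty => exact ⟨1, one_mem _, fun k hk => absurd hk (Finset.notMem_empty k)⟩
  | @insert a s ha ih =>
    obtain ⟨h, hh, hhb⟩ := ih
    obtain ⟨hsr, hqM, hrb, hrb'⟩ := hq a
    set p := q a with hp
    have hpM : p.A ∪ M = M := Set.union_eq_self_of_subset_left hqM
    have hdis : Disjoint ({a} : Set κ') (s : Set κ') := by
      rw [Set.disjoint_singleton_left]
      exact ha
    set B : Set V := ⋃ k ∈ (s : Set κ'), Set.range (b k) with hB
    set B' : Set V := ⋃ k ∈ (s : Set κ'), Set.range (b' k) with hB'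
    have hBc : B.Countable :=
      s.countable_toSet.biUnion fun k _ => Set.countable_range (b k)
    have hBc' : B'.Countable :=
      s.countable_toSet.biUnion fun k _ => Set.countable_range (b' k)
    have htr : tr h B = B' := by
      rw [hB, hB']
      unfold tr
      rw [Set.image_iUnion₂]
      refine Set.iUnion_congr fun k => ?_
      refine Set.iUnion_congr fun hk => ?_
      have := tr_range h (b k)
      rw [hhb k hk] at this
      exact this
    have hs1 : SI X M (Set.range (b a)) B := by
      have := hi {a} (s : Set κ') hdis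
      simp only [Set.mem_singleton_iff, Set.iUnion_iUnion_eq_left] at this
      exact this
    have hs1' : SI X M (Set.range (b' a)) B' := by
      have := hi' {a} (s : Set κ') hdis
      simp only [Set.mem_singleton_iff, Set.iUnion_iUnion_eq_left] at this
      exact this
    have hs2 : SI X M (Set.range (h • b a)) B' := by
      have := (si_fx (X := X) hM (Set.countable_range (b a)) hBc hh).2 hs1
      rwa [tr_range, htr] at this
    obtain ⟨-, -, -, r4, -, r6, -, -, -⟩ := h1 V G X p hsr M hM
    obtain ⟨-, r2, -, -, -, -, -, -, -⟩ := h1 V G X p hsr (M ∪ B') (hM.union hBc')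
    have hrh : Rl X p M (h • b a) := by
      refine r6 (b a) (h • b a) hrb ⟨h, ?_, rfl⟩
      rw [hpM]
      exact hh
    have e1 : Rl X p (M ∪ B') (h • b a) := r4 _ B' hBc' hrh (by rwa [hpM])
    have e2 : Rl X p (M ∪ B') (b' a) := r4 _ B' hBc' hrb' (by rwa [hpM])
    obtain ⟨k, hk, hkb⟩ := r2 _ _ e1 e2
    rw [← Set.union_assoc, hpM] at hk
    refine ⟨k * h, mul_mem (fx_union.1 hk).1 hh, fun i hi => ?_⟩
    rcases Finset.mem_insert.1 hi with rfl | hi
    · rw [mul_smul]
      exact hkb
    · rw [mul_smul, hhb i hi]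
      refine fx_smul hk ?_
      refine Set.Subset.trans ?_ Set.subset_union_right
      exact Set.subset_biUnion_of_mem (u := fun k => Set.range (b' k)) hi

theorem st_UNQ (h1 : ST_RLB) : ST_UNQ := by
  intro V G _ _ X M κ' _ q b b' hM hq hi hi'
  rcases isEmpty_or_nonempty κ' with hem | hne
  · exact ⟨1, one_mem _, fun k => (hem.false k).elim⟩
  obtain ⟨e, he⟩ := exists_surjective_nat κ'
  classical
  obtain ⟨g, hg, hgd⟩ := st_TYPS V G X M hM (fun n => b (e n) 0) (fun n => b' (e n) 0) (by
    intro n
    obtain ⟨g, hg, hgb⟩ := unq_fin h1 X M q b b' hM hq hi hi' ((Finset.range n).image e)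
    refine ⟨g, hg, ?_⟩
    ext i
    have := hgb (e i) (Finset.mem_image_of_mem e (Finset.mem_range.2 i.2))
    exact congrFun this 0)
  refine ⟨g, hg, fun k => ?_⟩
  obtain ⟨n, rfl⟩ := he k
  ext i
  rw [Subsingleton.elim i 0]
  exact hgd n

end Pool.Agent.Helper90.MZ
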