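import Pool.Agent.Helper90.MZ.StmtsA

set_option autoImplicit false

namespace Pool.Agent.Helper90.MZ

open Pool.Agent.Helper90.TS

theorem st_USEV (h1 : ST_OPN) (h2 : ST_ISLB) : ST_USEV := by
  intro V G _ _ X M Z hM hZ ι _ c hc hsi
  have hMc : M.Countable := hM.1
  have hcc : (Set.range c).Countable := Set.countable_range c
  refine (h2 V G X M hMc ι c).2.2.2.2.2.1 hM ?_
  exact h1 V G X M (M ∪ Z) Set.subset_union_left (hMc.union hZ) ι c hc
    ((si_add_base hMc hcc hZ).2 hsi)

end Pool.Agent.Helper90.MZ
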